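import Pool.Agent.H23.SF.W4

/-!
# Row W2 of the board `spw_modules`
-/

set_option autoImplicit false

namespace Pool.Agent.H23.SF

open Finset Filter Topology Pool.Agent.H3.SF Pool.Agent.H99.SQ MeasureTheory

/-- the cylinder of a residue -/
def Sa (Y a : ℕ) : Set Om := {w | ∀ p : Ix, (p : ℕ) ≤ Y → w p = (a : ZMod ((p : ℕ) ^ 2))}

theorem Sa_meas (Y a : ℕ) : MeasurableSet (Sa Y a) := by
  have h2 : Sa Y a = ⋂ p : Ix, {w : Om | (p : ℕ) ≤ Y → w p = (a : ZMod ((p : ℕ) ^ 2))} := by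
    ext w
    simp [Sa]
  rw [h2]
  refine MeasurableSet.iInter fun p => ?_
  have h3 : {w : Om | (p : ℕ) ≤ Y → w p = (a : ZMod ((p : ℕ) ^ 2))} =
      (fun w : Om => w p) ⁻¹' {x | (p : ℕ) ≤ Y → x = (a : ZMod ((p : ℕ) ^ 2))} := rfl
  rw [h3]
  exact measurable_pi_apply p (MeasurableSpace.measurableSet_top)

theorem Sa_mass (Y a : ℕ) : PM.real (Sa Y a) = 1 / QQ (FF Y) := by
  classical
  set s : Finset Ix := (FF Y).subtype (fun p => p.Prime ∧ p ≠ 2) with hs
  have hms : ∀ p : Ix, p ∈ s ↔ (p : ℕ) ≤ Y := by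
    intro p
    rw [hs, Finset.mem_subtype, mem_FF]
    exact ⟨fun h => h.1, fun h => ⟨h, p.2⟩⟩
  have h1 : Sa Y a = Set.pi (s : Set Ix) fun p => {(a : ZMod ((p : ℕ) ^ 2))} := by
    ext w
    simp only [Sa, Set.mem_setOf_eq, Set.mem_pi, Finset.mem_coe, Set.mem_singleton_iff, hms]
  have h2 : PM (Sa Y a) = ∏ p ∈ s, (ProbabilityTheory.uniformOn
      (Set.univ : Set (ZMod ((p : ℕ) ^ 2)))) {(a : ZMod ((p : ℕ) ^ 2))} := by
    rw [h1]
    exact Measure.infinitePi_pi _ fun p _ => MeasurableSpace.measurableSet_top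
  rw [Measure.real, h2, ENNReal.toReal_prod]
  have h3 : ∀ p ∈ s, ((ProbabilityTheory.uniformOn
      (Set.univ : Set (ZMod ((p : ℕ) ^ 2)))) {(a : ZMod ((p : ℕ) ^ 2))}).toReal =
      1 / ((p : ℕ) : ℝ) ^ 2 := by
    intro p _
    rw [ProbabilityTheory.uniformOn_univ, Measure.count_singleton, ZMod.card]
    simp
  rw [Finset.prod_congr rfl h3]
  have h4 : ∏ p ∈ s, 1 / ((p : ℕ) : ℝ) ^ 2 = ∏ p ∈ FF Y, 1 / (p : ℝ) ^ 2 :=
    Finset.prod_subtype_of_mem (fun p : ℕ => 1 / (p : ℝ) ^ 2) fun p hp => FF_OP hp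
  rw [h4, Finset.prod_div_distrib, Finset.prod_const_one]
  unfold QQ
  push_cast
  rfl

theorem pf_W2 : T_W2 := by
  classical
  intro Y Y' g hY
  have h1 : (fun w => g (dY Y w) (dY Y' w)) = fun w => ∑ a ∈ range (QQ (FF Y')),
      (Sa Y' a).indicator (fun _ => g (UU (FF Y) a) (UU (FF Y') a)) w := by
    funext w
    obtain ⟨a, ha, haw⟩ := exists_res Y' w
    rw [dY_eq Y Y' hY w a haw, dY_eq Y' Y' le_rfl w a haw]
    rw [Finset.sum_eq_single_of_mem a (mem_range.2 ha)]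
    · rw [Set.indicator_of_mem]
      exact haw
    · intro b hb hba
      rw [Set.indicator_of_notMem]
      intro hbw
      apply hba
      refine res_unique Y' (mem_range.1 hb) ha fun p hp => ?_
      rw [← haw p hp]
      exact (hbw p hp).symm
  rw [h1, integral_finset_sum]
  · rw [Finset.sum_div]
    refine Finset.sum_congr rfl fun a _ => ?_
    rw [integral_indicator_const _ (Sa_meas Y' a), Sa_mass, smul_eq_mul]
    ring
  · intro a _
    exact (integrable_const _).indicator (Sa_meas Y' a)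

end Pool.Agent.H23.SF
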