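import Pool.Agent.H23.SF.WB

/-!
# Row W4 of the board `spw_modules`
-/

set_option autoImplicit false

namespace Pool.Agent.H23.SF

open Finset Filter Topology Pool.Agent.H3.SF Pool.Agent.H99.SQ MeasureTheory

instance neZ (p : Ix) : NeZero ((p : ℕ) ^ 2) := ⟨(pow_pos p.2.1.pos 2).ne'⟩

instance probP (p : Ix) : IsProbabilityMeasure
    (ProbabilityTheory.uniformOn (Set.univ : Set (ZMod ((p : ℕ) ^ 2)))) := inferInstance

instance probPM : IsProbabilityMeasure PM := by
  unfold PM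
  infer_instance

theorem dY_bounds (Y : ℕ) (w : Om) : 0 ≤ dY Y w ∧ dY Y w ≤ 1 := by
  classical
  unfold dY
  refine ⟨by positivity, div_le_one_of_le₀ ?_ (Nat.cast_nonneg _)⟩
  exact_mod_cast (Finset.card_filter_le _ _).trans (le_of_eq (Finset.card_range _))

theorem dY_anti (hUUF : T_UUF) {Y Y' : ℕ} (h : Y ≤ Y') (w : Om) : dY Y' w ≤ dY Y w := by
  classical
  obtain ⟨a, -, ha⟩ := exists_res Y' w
  rw [dY_eq Y Y' h w a ha, dY_eq Y' Y' le_rfl w a ha]
  have h1 := (hUUF (FF Y) a fun p hp => FF_OP hp).2.1 (MP (FF Y))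
  have h2 := (hUUF (FF Y') a fun p hp => FF_OP hp).2.1 (MP (FF Y'))
  by_contra hcon
  rw [not_le] at hcon
  set e : ℝ := UU (FF Y') a - UU (FF Y) a with he
  have he0 : 0 < e := by linarith
  obtain ⟨N, hN⟩ := exists_nat_gt (((MP (FF Y) : ℝ) + MP (FF Y')) / e)
  rw [div_lt_iff₀ he0] at hN
  have h3 := (abs_le.1 (h1 N (MP_pos Y) fun p hp => mm_dvd hp)).2
  have h4 := (abs_le.1 (h2 N (MP_pos Y') fun p hp => mm_dvd hp)).1
  have h5 : (UC (FF Y') a N : ℝ) ≤ UC (FF Y) a N := by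
    unfold UC
    have h6 : ((range N).filter fun l => ∀ p ∈ FF Y', ¬ Kill p a l).card ≤
        ((range N).filter fun l => ∀ p ∈ FF Y, ¬ Kill p a l).card := by
      refine Finset.card_le_card fun l hl => ?_
      rw [mem_filter] at hl ⊢
      exact ⟨hl.1, fun p hp => hl.2 p (FF_mono h hp)⟩
    exact_mod_cast h6
  have h7 : UU (FF Y') a * N - UU (FF Y) a * N = N * e := by
    rw [he]
    ring
  linarith

theorem dY_meas (Y : ℕ) : Measurable (dY Y) := by
  classical
  have h1 : dY Y = fun w => (∑ l ∈ range (MP (FF Y)),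
      (if ∀ p : Ix, (p : ℕ) ≤ Y → w p ≠ 2 ^ l then (1 : ℝ) else 0)) / MP (FF Y) := by
    funext w
    unfold dY
    rw [Finset.card_filter]
    push_cast
    rfl
  rw [h1]
  refine Measurable.div_const (Finset.measurable_sum _ fun l _ => ?_) _
  refine Measurable.ite ?_ measurable_const measurable_const
  have h2 : {w : Om | ∀ p : Ix, (p : ℕ) ≤ Y → w p ≠ 2 ^ l} =
      ⋂ p : Ix, {w : Om | (p : ℕ) ≤ Y → w p ≠ 2 ^ l} := by
    ext w
    simp
  rw [h2]
  refine MeasurableSet.iInter fun p => ?_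
  have h3 : {w : Om | (p : ℕ) ≤ Y → w p ≠ 2 ^ l} =
      (fun w : Om => w p) ⁻¹' {x | (p : ℕ) ≤ Y → x ≠ 2 ^ l} := rfl
  rw [h3]
  exact measurable_pi_apply p (MeasurableSpace.measurableSet_top)

theorem pf_W4 (hUUF : T_UUF) : T_W4 := by
  classical
  have hanti : ∀ w, Antitone fun Y => dY Y w := fun w _ _ h => dY_anti hUUF h w
  have hlim : ∀ w, Tendsto (fun Y => dY Y w) atTop (𝓝 (Dd w)) := fun w =>
    tendsto_atTop_ciInf (hanti w) ⟨0, by
      rintro _ ⟨Y, rfl⟩
      exact (dY_bounds Y w).1⟩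
  refine ⟨dY_meas, ?_, hanti, dY_bounds, hlim, ?_⟩
  · exact measurable_of_tendsto_metrizable dY_meas (tendsto_pi_nhds.2 hlim)
  · intro g hg
    obtain ⟨C, hC⟩ := isCompact_Icc.exists_bound_of_continuousOn (hg.continuousOn (s := Set.Icc 0 1))
    refine tendsto_integral_of_dominated_convergence (fun _ => C) (fun Y => ?_)
      (integrable_const C) (fun Y => ?_) ?_
    · exact (hg.measurable.comp (dY_meas Y)).aestronglyMeasurable
    · exact Eventually.of_forall fun w => hC _ ⟨(dY_bounds Y w).1, (dY_bounds Y w).2⟩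
    · exact Eventually.of_forall fun w => (hg.tendsto _).comp (hlim w)

end Pool.Agent.H23.SF
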