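import Pool.Agent.H3.SF.Targets
import Pool.Agent.H14.SQ.ORD

/-!
# Common lemmas for the rows W2 and W4 of the board `spw_modules`
-/

set_option autoImplicit false

namespace Pool.Agent.H23.SF

open Finset Filter Topology Pool.Agent.H3.SF Pool.Agent.H99.SQ MeasureTheory

theorem mem_FF {Y p : ℕ} : p ∈ FF Y ↔ p ≤ Y ∧ p.Prime ∧ p ≠ 2 := by
  unfold FF
  rw [mem_filter, mem_range, Nat.lt_succ_iff]

theorem FF_OP {Y p : ℕ} (h : p ∈ FF Y) : OP p := (mem_FF.1 h).2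

theorem FF_mono {Y Y' : ℕ} (h : Y ≤ Y') : FF Y ⊆ FF Y' := by
  intro p hp
  obtain ⟨h1, h2⟩ := mem_FF.1 hp
  exact mem_FF.2 ⟨h1.trans h, h2⟩

theorem QQ_pos (Y : ℕ) : 0 < QQ (FF Y) :=
  Finset.prod_pos fun _ hp => pow_pos (FF_OP hp).1.pos 2

theorem MP_pos (Y : ℕ) : 0 < MP (FF Y) :=
  Finset.prod_pos fun p hp => (Pool.Agent.H14.SQ.pf_ORD p (FF_OP hp)).1

theorem mm_dvd {F : Finset ℕ} {p : ℕ} (hp : p ∈ F) : mm p ∣ MP F := Finset.dvd_prod_of_mem _ hp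

theorem coprime_sq {p q : ℕ} (hp : p.Prime) (hq : q.Prime) (h : p ≠ q) :
    Nat.Coprime (p ^ 2) (q ^ 2) :=
  Nat.Coprime.pow 2 2 ((Nat.coprime_primes hp hq).2 h)

theorem pw_coprime (Y : ℕ) : Set.Pairwise (FF Y : Set ℕ) (Function.onFun Nat.Coprime fun p => p ^ 2) :=
  fun _ hp _ hq h => coprime_sq (FF_OP hp).1 (FF_OP hq).1 h

/-- the residue modulo `QQ (FF Y)` given by a point -/
theorem exists_res (Y : ℕ) (w : Om) : ∃ a < QQ (FF Y), ∀ p : Ix, (p : ℕ) ≤ Y →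
    w p = (a : ZMod ((p : ℕ) ^ 2)) := by
  classical
  let v : ℕ → ℕ := fun p => if h : p.Prime ∧ p ≠ 2 then (w ⟨p, h⟩).val else 0
  have hs : ∀ p ∈ FF Y, (fun p => p ^ 2) p ≠ 0 := fun p hp => (pow_pos (FF_OP hp).1.pos 2).ne'
  refine ⟨Nat.chineseRemainderOfFinset v (fun p => p ^ 2) (FF Y) hs (pw_coprime Y),
    Nat.chineseRemainderOfFinset_lt_prod v (fun p => p ^ 2) hs (pw_coprime Y), ?_⟩
  intro p hp
  have hpF : (p : ℕ) ∈ FF Y := mem_FF.2 ⟨hp, p.2⟩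
  have h1 := (Nat.chineseRemainderOfFinset v (fun p => p ^ 2) (FF Y) hs (pw_coprime Y)).2 p hpF
  have h2 : v (p : ℕ) = (w p).val := dif_pos p.2
  have : NeZero ((p : ℕ) ^ 2) := ⟨hs p hpF⟩
  rw [h2] at h1
  have h3 := (ZMod.natCast_eq_natCast_iff _ _ _).2 h1
  rw [h3, ZMod.natCast_val, ZMod.cast_id]

theorem res_unique (Y : ℕ) {a b : ℕ} (ha : a < QQ (FF Y)) (hb : b < QQ (FF Y))
    (h : ∀ p : Ix, (p : ℕ) ≤ Y → (a : ZMod ((p : ℕ) ^ 2)) = (b : ZMod ((p : ℕ) ^ 2))) : a = b := by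
  have h1 : ((QQ (FF Y) : ℕ) : ℤ) ∣ (b : ℤ) - a := by
    unfold QQ
    rw [Nat.cast_prod]
    apply Finset.prod_dvd_of_coprime
    · intro p hp q hq hpq
      have h2 := pw_coprime Y hp hq hpq
      exact Nat.isCoprime_iff_coprime.2 h2
    · intro p hp
      have h2 := h ⟨p, FF_OP hp⟩ (mem_FF.1 hp).1
      exact (Nat.modEq_iff_dvd.1 ((ZMod.natCast_eq_natCast_iff _ _ _).1 h2))
  have h2 : a ≡ b [MOD QQ (FF Y)] := Nat.modEq_iff_dvd.2 h1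
  exact Nat.ModEq.eq_of_lt_of_lt h2 ha hb

/-- the value of `dY` in terms of the residue -/
theorem dY_eq (Y Y' : ℕ) (hY : Y ≤ Y') (w : Om) (a : ℕ)
    (h : ∀ p : Ix, (p : ℕ) ≤ Y' → w p = (a : ZMod ((p : ℕ) ^ 2))) : dY Y w = UU (FF Y) a := by
  classical
  unfold dY UU UC
  congr 2
  refine congrArg Finset.card (Finset.filter_congr fun l _ => ?_)
  constructor
  · intro h1 p hp hk
    have hp' := mem_FF.1 hp
    have h2 := h1 ⟨p, hp'.2⟩ hp'.1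
    rw [h ⟨p, hp'.2⟩ (hp'.1.trans hY)] at h2
    exact h2 hk
  · intro h1 p hp hk
    rw [h p (hp.trans hY)] at hk
    exact h1 p (mem_FF.2 ⟨hp, p.2⟩) hk

end Pool.Agent.H23.SF
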